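import Pool.Agent.H33.LSq

set_option autoImplicit false

namespace Pool.Agent.Results.MP_ffd784_gt.LSquareCH

/-- Under CH there is a Tychonoff L-space whose square is D-separable. -/
theorem result (hCH : Cardinal.continuum.{0} = Cardinal.aleph 1) :
    ∃ (X : Type) (_ : TopologicalSpace X), T35Space X ∧ HereditarilyLindelofSpace X ∧
      ¬ TopologicalSpace.SeparableSpace X ∧
      ∀ D : ℕ → Set (X × X), (∀ n, Dense (D n)) →
        ∃ F : ℕ → Set (X × X), (∀ n, F n ⊆ D n ∧ DiscreteTopology (F n)) ∧ Dense (⋃ n, F n) :=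
  Pool.Agent.H33.LSq.final hCH

end Pool.Agent.Results.MP_ffd784_gt.LSquareCH
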